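import Mathlib

set_option autoImplicit false
open MvPolynomial

namespace Pool.Agent.Results.MP_0f7e3c_al.NotIso

abbrev R : Type := MvPolynomial (Fin 6) ℂ

noncomputable def ι : R := C Complex.I
lemma hι : ι * ι = -1 := by simp [ι, ← C_mul]
@[simp] lemma dι (i : Fin 6) : pderiv i ι = 0 := pderiv_C

noncomputable def z1 : R := X 0 + ι * X 3
noncomputable def z2 : R := X 1 + ι * X 4
noncomputable def z3 : R := X 2 + ι * X 5
noncomputable def w1 : R := X 0 - ι * X 3
noncomputable def w2 : R := X 1 - ι * X 4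
noncomputable def s : R := w1 + w2 * z3
noncomputable def t : R := z1 * z3 - z2
noncomputable def P : R := s * t

noncomputable def g : Fin 6 → R := ![s * z3 + t, -s + z3 * t, w2 * t + s * z1,
  ι * (s * z3 - t), ι * (-s - z3 * t), ι * (w2 * t + s * z1)]

lemma hg (i : Fin 6) : pderiv i P = g i := by
  fin_cases i <;> simp [P, g, s, t, z1, z2, z3, w1, w2, pderiv_X, Pi.single_apply] <;> ring

lemma inv (e : R) (φ : R →ₐ[ℂ] R) (hφ : ∀ j, φ (X j) = X j + e * g j) (i : Fin 6) :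
    φ (g i) = g i := by
  have a0 : φ ι = ι := algHom_C _ _
  have b0 : φ (X 0) = X 0 + e * (s * z3 + t) := hφ 0
  have b1 : φ (X 1) = X 1 + e * (-s + z3 * t) := hφ 1
  have b2 : φ (X 2) = X 2 + e * (w2 * t + s * z1) := hφ 2
  have b3 : φ (X 3) = X 3 + e * (ι * (s * z3 - t)) := hφ 3
  have b4 : φ (X 4) = X 4 + e * (ι * (-s - z3 * t)) := hφ 4
  have b5 : φ (X 5) = X 5 + e * (ι * (w2 * t + s * z1)) := hφ 5
  have a1 : φ z1 = z1 + 2 * e * t := by
    rw [z1, map_add, map_mul, a0, b0, b3]; linear_combination e * (s * z3 - t) * hι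
  have a2 : φ z2 = z2 + 2 * e * z3 * t := by
    rw [z2, map_add, map_mul, a0, b1, b4]; linear_combination e * (-s - z3 * t) * hι
  have a3 : φ z3 = z3 := by
    rw [z3, map_add, map_mul, a0, b2, b5]; linear_combination e * (w2 * t + s * z1) * hι
  have a4 : φ w1 = w1 + 2 * e * s * z3 := by
    rw [w1, map_sub, map_mul, a0, b0, b3]; linear_combination -e * (s * z3 - t) * hι
  have a5 : φ w2 = w2 - 2 * e * s := by
    rw [w2, map_sub, map_mul, a0, b1, b4]; linear_combination -e * (-s - z3 * t) * hι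
  have a6 : φ s = s := by
    rw [s, map_add, map_mul, a4, a5, a3, ← s, show w1 = s - w2 * z3 by simp [s]]; ring
  have a7 : φ t = t := by
    rw [t, map_sub, map_mul, a1, a2, a3, ← t, show z2 = z1 * z3 - t by simp [t]]; ring
  fin_cases i <;> simp [g, a0, a1, a3, a5, a6, a7] <;> ring_nf <;> simp

noncomputable def U : Matrix (Fin 6) (Fin 6) R :=
  !![1, 0, 0, ι, 0, 0; 0, 1, 0, 0, ι, 0; 0, 0, 1, 0, 0, ι;
     1, 0, 0, -ι, 0, 0; 0, 1, 0, 0, -ι, 0; 0, 0, 1, 0, 0, -ι]

noncomputable def K : Matrix (Fin 6) (Fin 6) R :=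
  !![0, 0, w1 + 2 * z3 * w2, z3, z3 * z3, 0; 0, 0, -w2, -1, -z3, 0;
     w1 + 2 * z3 * w2, -w2, 2 * z1 * w2, z1, 2 * z1 * z3 - z2, 0;
     z3, -1, z1, 0, 0, 0; z3 * z3, -z3, 2 * z1 * z3 - z2, 0, 0, 0; 0, 0, 0, 0, 0, 0]

noncomputable def N : Matrix (Fin 6) (Fin 6) R :=
  !![z3, z3 * z3, 0, 0, 0, w1 + 2 * z3 * w2; -1, -z3, 0, 0, 0, -w2;
     z1, 2 * z1 * z3 - z2, 0, w1 + 2 * z3 * w2, -w2, 2 * z1 * w2;
     0, 0, 0, z3, -1, z1; 0, 0, 0, z3 * z3, -z3, 2 * z1 * z3 - z2; 0, 0, 0, 0, 0, 0]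

noncomputable def N2 : Matrix (Fin 6) (Fin 6) R :=
  !![0, 0, 0, 0, 0, s * z3; 0, 0, 0, 0, 0, -s;
     -t, -t * z3, 0, s * z3, -s, 2 * z1 * w1 + 2 * z2 * w2;
     0, 0, 0, 0, 0, -t; 0, 0, 0, 0, 0, -t * z3; 0, 0, 0, 0, 0, 0]

lemma hN : N * N = N2 := by
  ext1 i j
  fin_cases i <;> fin_cases j <;> simp [N, N2, Matrix.mul_apply, Fin.sum_univ_six, s, t] <;> ring

lemma hN2 : N2 * N2 = 0 := by
  ext1 i j
  fin_cases i <;> fin_cases j <;> simp [N2, Matrix.mul_apply, Fin.sum_univ_six]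
  ring

lemma hK : K * U * U.transpose = (2 : R) • N := by
  ext1 i j
  fin_cases i <;> fin_cases j <;>
    simp [N, K, U, Matrix.mul_apply, Fin.sum_univ_six, mul_assoc, hι, add_mul, sub_mul] <;> ring

lemma hH : (Matrix.of fun i j => pderiv i (pderiv j P)) = U.transpose * (K * U) := by
  ext1 i j
  rw [Matrix.of_apply, hg]
  fin_cases i <;> fin_cases j <;>
    simp [K, U, Matrix.mul_apply, Fin.sum_univ_six, g, s, t, z1, z2, z3, w1, w2, pderiv_X,
      -mul_eq_mul_left_iff] <;> ring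

lemma grad_mem {Ξ : Set (Fin 6 → ℂ)} {Q : R}
    (hQ : Q ∈ Algebra.adjoin ℂ ((fun α : Fin 6 → ℂ => ∑ i, C (α i) * X i) '' Ξ)) :
    ∀ m, (fun i => coeff m (pderiv i Q)) ∈ Submodule.span ℂ Ξ := by
  classical
  induction hQ using Algebra.adjoin_induction with
  | mem q hq =>
    obtain ⟨α, hα, rfl⟩ := hq
    intro m
    convert Submodule.smul_mem _ (coeff m (1 : R)) (Submodule.subset_span hα) using 1
    ext i
    simp [pderiv_X, Pi.single_apply, coeff_C, coeff_one]
  | algebraMap c => intro m; simp only [algebraMap_eq, pderiv_C, coeff_zero]; exact zero_mem _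
  | add p q _ _ hp hq => intro m; simp only [map_add, coeff_add]; exact add_mem (hp m) (hq m)
  | mul p q _ _ hp hq =>
    intro m
    convert Submodule.add_mem _
      (Submodule.sum_mem _ (t := Finset.HasAntidiagonal.antidiagonal m) fun a _ =>
        Submodule.smul_mem _ (coeff a.1 p) (hq a.2))
      (Submodule.sum_mem _ (t := Finset.HasAntidiagonal.antidiagonal m) fun a _ =>
        Submodule.smul_mem _ (coeff a.1 q) (hp a.2)) using 1
    ext i
    simp [coeff_mul]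

theorem result : ∃ P : MvPolynomial (Fin 6) ℂ, 
    (constantCoeff P = 0 ∧ ∀ i, constantCoeff (pderiv i P) = 0) ∧
    IsNilpotent (Matrix.of fun i j => pderiv i (pderiv j P)) ∧
    (∀ i, aeval (fun j => X j + pderiv j P) (X i - pderiv i P) = X i ∧
      aeval (fun j => X j - pderiv j P) (X i + pderiv i P) = X i) ∧
    ∀ Ξ : Set (Fin 6 → ℂ), (∀ α ∈ Ξ, ∀ β ∈ Ξ, ∑ i, α i * β i = 0) →
      ¬ ∀ N : ℕ, ∃ Q ∈ Algebra.adjoin ℂ ((fun α : Fin 6 → ℂ => ∑ i, C (α i) * X i) '' Ξ),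
        ∀ m, m.degree < N → coeff m P = coeff m Q := by
  refine ⟨P, ⟨by simp [P, t, z1, z2, z3], fun i => ?_⟩, ?_, fun i => ⟨?_, ?_⟩, fun Ξ hΞ h => ?_⟩
  · rw [hg]; fin_cases i <;> simp [g, s, t, z1, z2, z3, w1, w2]
  · refine ⟨4 + 1, ?_⟩
    rw [hH, pow_succ, ← mul_assoc, mul_pow_mul, hK, smul_pow, show 4 = 2 + 2 from rfl, pow_add N,
      pow_two, hN, hN2, smul_zero, mul_zero, zero_mul]
  · simp only [hg]
    rw [map_sub, inv 1 _ (fun j => by simp) i, aeval_X, add_sub_cancel_right]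
  · simp only [hg]
    rw [map_add, inv (-1) _ (fun j => by simp [sub_eq_add_neg]) i, aeval_X, sub_add_cancel]
  · obtain ⟨Q, hQ, h⟩ := h 5
    have orth : ∀ u ∈ Submodule.span ℂ Ξ, ∀ v ∈ Submodule.span ℂ Ξ, u ⬝ᵥ v = 0 := by
      intro u hu v hv
      induction hu, hv using Submodule.span_induction₂ with
      | mem_mem a b ha hb => exact hΞ a ha b hb
      | zero_left => simp
      | zero_right => simp
      | add_left a b c _ _ _ p q => rw [add_dotProduct, p, q, add_zero]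
      | add_right a b c _ _ _ p q => rw [dotProduct_add, p, q, add_zero]
      | smul_left r a b _ _ p => rw [smul_dotProduct, p, smul_zero]
      | smul_right r a b _ _ p => rw [dotProduct_smul, p, smul_zero]
    have e1 : ∀ i, coeff (Finsupp.single 0 1) (pderiv i Q) = constantCoeff (pderiv 0 (g i)) :=
      fun i => by
        rw [← hg, constantCoeff_eq, coeff_pderiv (i := 0), coeff_pderiv, coeff_pderiv,
          ← h _ (by simp)]
        simp
    have e2 : ∀ i, coeff (Finsupp.single 1 1 + Finsupp.single 2 1) (pderiv i Q) =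
        constantCoeff (pderiv 1 (pderiv 2 (g i))) := fun i => by
      rw [← hg, constantCoeff_eq, coeff_pderiv (i := 1), coeff_pderiv (i := 2), coeff_pderiv,
        coeff_pderiv, ← h _ (by simp)]
      simp
    have := orth _ (grad_mem hQ (Finsupp.single 0 1)) _
      (grad_mem hQ (Finsupp.single 1 1 + Finsupp.single 2 1))
    simp only [e1, e2, dotProduct, Fin.sum_univ_six] at this
    simp [g, s, t, z1, z2, z3, w1, w2, pderiv_X, ι] at this

end Pool.Agent.Results.MP_0f7e3c_al.NotIso
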